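import Pool.Agent.H52.FAC.Main

/-!
# `ℓ¹(ℚ⁺)` has elements which are not products
-/

set_option autoImplicit false

namespace Pool.Agent.Results.MP_89f94c_an.NoFactorization

/-- The elements of `ℓ¹(ℚ⁺)`, extended by `0` to the rationals `q ≤ 0`. -/
def L1 (f : ℚ → ℂ) : Prop := (∀ q : ℚ, q ≤ 0 → f q = 0) ∧ Summable fun q : ℚ => ‖f q‖

/-- The convolution. -/
noncomputable def conv (g h : ℚ → ℂ) (q : ℚ) : ℂ := ∑' r : ℚ, g r * h (q - r)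

/-- `1/2, 1/10, 1/10, 1/10, 1/10, 1/20, 1/100, 1/100, ...` -/
noncomputable def coeff (j : ℕ) : ℝ := (if j % 5 = 0 then 5 else 1) / 10 ^ (j / 5 + 1)

theorem result : ∃ S : ℕ → ℕ, ∀ t : ℕ → ℚ, (∀ j, 0 < t j) →
    (∀ j, (S j : ℚ) * t (j + 1) ≤ t j) → ∃ f : ℚ → ℂ, L1 f ∧ ∑' q : ℚ, ‖f q‖ = 1 ∧
      (∀ j, f (t j) = coeff j) ∧ (∀ q, (∀ j, t j ≠ q) → f q = 0) ∧
      ∀ g h : ℚ → ℂ, L1 g → L1 h → f ≠ conv g h := by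
  obtain ⟨S, hS⟩ := Pool.Agent.H52.FAC.main
  refine ⟨S, fun t ht hsep => ?_⟩
  obtain ⟨f, h1, h2, h3, h4, h5, h6⟩ := hS t ht hsep
  exact ⟨f, ⟨h3, h4⟩, h5, h1, h2, fun g h hg hh hfg =>
    h6 g h hg.1 hh.1 hg.2 hh.2 fun q => congrFun hfg q⟩

end Pool.Agent.Results.MP_89f94c_an.NoFactorization
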